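import Pool.Agent.N66.QG.Main
import Pool.Agent.N66.QG.Free

/-!
# Free `ℚ`-groups of rank at least two do not act freely on `Λ`-trees

The free `ℚ`-group on every set `X` exists, and if `X` has at least two elements it does not act
freely on any `Λ`-tree, for any totally ordered abelian group `Λ`.

In fact a group which acts freely on a `Λ`-tree and in which every element is a cube is
commutative (`Pool.Agent.N66.QG.comm_of_cube_roots`): if `g`, `h` translate in coherent directions
at a common point of their axes and `|h| ≤ |g|`, then the axes of `g` and `g h` have in common a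
segment of length `|g| ≥ (|g| + |g h|) / 3`, and so the cube roots of `g` and `g h` commute.
-/

set_option autoImplicit false

namespace Pool.Agent.Results.MP_c6101b_al.NoFreeAction

open Pool.Agent.N66.QG

universe u v w

/-- For every set `X` there is a free `ℚ`-group on `X`; and for every set `X` with at least two
elements, the free `ℚ`-group on `X` does not act freely on any `Λ`-tree, for any totally ordered
abelian group `Λ`. -/
theorem result :
    (∀ X : Type u, ∃ (F : Type u) (_ : Group F) (ι : X → F), IsFreeQGroup X F ι) ∧
    ∀ (X : Type u) (F : Type u) [Group F] (ι : X → F), IsFreeQGroup X F ι →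
      (∃ x y : X, x ≠ y) → ¬ TreeFree.{u, v, w} F := by
  refine ⟨fun X => ⟨FQ X, inferInstance, _, FQ.isFree X⟩, ?_⟩
  rintro X F _ ι hF ⟨x, y, hxy⟩ ⟨Λ, _, _, _, T, _, d, hT, hA⟩
  exact not_comm_of_ne hF hxy (comm_of_cube_roots hT hA
    (fun g => (hF.isQGroup 3 (by norm_num) g).exists) (ι x) (ι y))

end Pool.Agent.Results.MP_c6101b_al.NoFreeAction
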